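import Pool.Agent.D0H26.Nil.Stm

/-! # Linear algebra of hyperbolic splittings: LIN1, LIN2, LIN4 -/

set_option autoImplicit false

open Filter Topology Set Metric

namespace Pool.Agent.D0H98.NIL

open Pool.Agent.D0H26.Nil Pool.Agent.D0H26.Fac

universe u

section
variable {V : Type u} [NormedAddCommGroup V] [NormedSpace ℝ V]

/-- iterates as a linear map -/
noncomputable def P (T : V ≃ₗ[ℝ] V) (n : ℕ) : V →ₗ[ℝ] V := (T.toLinearMap ^ n : Module.End ℝ V)

lemma P_apply (T : V ≃ₗ[ℝ] V) (n : ℕ) (x : V) : P T n x = T^[n] x := by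
  rw [P, Module.End.pow_apply]; rfl

/-- the stable space -/
noncomputable def Gs (T : V ≃ₗ[ℝ] V) : Submodule ℝ V where
  carrier := {w | Tendsto (fun n : ℕ => T^[n] w) atTop (𝓝 0)}
  add_mem' := by
    intro x y hx hy
    have : (fun n : ℕ => T^[n] (x + y)) = fun n => T^[n] x + T^[n] y := by
      funext n; rw [← P_apply, ← P_apply, ← P_apply, map_add]
    show Tendsto _ _ _
    rw [this]
    simpa using Tendsto.add hx hy
  zero_mem' := by
    have : (fun n : ℕ => T^[n] (0 : V)) = fun _ => 0 := by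
      funext n; rw [← P_apply, map_zero]
    show Tendsto _ _ _
    rw [this]
    exact tendsto_const_nhds
  smul_mem' := by
    intro c x hx
    have : (fun n : ℕ => T^[n] (c • x)) = fun n => c • T^[n] x := by
      funext n; rw [← P_apply, ← P_apply, map_smul]
    show Tendsto _ _ _
    rw [this]
    simpa using Tendsto.const_smul hx c

lemma mem_Gs (T : V ≃ₗ[ℝ] V) (w : V) : w ∈ Gs T ↔ Tendsto (fun n : ℕ => T^[n] w) atTop (𝓝 0) :=
  Iff.rfl

lemma it_symm (T : V ≃ₗ[ℝ] V) (n : ℕ) (x : V) : T^[n] (T.symm^[n] x) = x :=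
  (Function.LeftInverse.iterate (fun y => T.apply_symm_apply y) n) x

lemma it_symm' (T : V ≃ₗ[ℝ] V) (n : ℕ) (x : V) : T.symm^[n] (T^[n] x) = x :=
  (Function.LeftInverse.iterate (fun y => T.symm_apply_apply y) n) x

lemma unif [FiniteDimensional ℝ V] (T : V ≃ₗ[ℝ] V) : ∃ a : ℕ → ℝ, Tendsto a atTop (𝓝 0) ∧
    ∀ n, ∀ w ∈ Gs T, ‖T^[n] w‖ ≤ a n * ‖w‖ := by
  classical
  set b := Module.finBasis ℝ (Gs T) with hb
  -- coordinates are bounded
  have hc : ∀ i, ∃ C : ℝ, ∀ w : Gs T, |b.repr w i| ≤ C * ‖w‖ := by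
    intro i
    refine ⟨‖LinearMap.toContinuousLinearMap (b.coord i)‖, fun w => ?_⟩
    have := (LinearMap.toContinuousLinearMap (b.coord i)).le_opNorm w
    simpa using this
  choose C hC using hc
  refine ⟨fun n => ∑ i, C i * ‖T^[n] (b i : V)‖, ?_, ?_⟩
  · have h : ∀ i, Tendsto (fun n : ℕ => C i * ‖T^[n] (b i : V)‖) atTop (𝓝 0) := by
      intro i
      have h1 : Tendsto (fun n : ℕ => T^[n] (b i : V)) atTop (𝓝 0) := (b i).2
      simpa using (h1.norm).const_mul (C i)
    simpa using tendsto_finsetSum Finset.univ fun i _ => h i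
  · intro n w hw
    have e : w = ∑ i, (b.repr ⟨w, hw⟩ i) • (b i : V) := by
      have := b.sum_repr ⟨w, hw⟩
      have h2 := congrArg (Submodule.subtype (Gs T)) this
      rw [map_sum] at h2
      simpa using h2.symm
    have e2 : T^[n] w = ∑ i, (b.repr ⟨w, hw⟩ i) • T^[n] (b i : V) := by
      conv_lhs => rw [e]
      rw [← P_apply, map_sum]
      refine Finset.sum_congr rfl fun i _ => ?_
      rw [map_smul, P_apply]
    rw [e2, Finset.sum_mul]
    refine (norm_sum_le _ _).trans (Finset.sum_le_sum fun i _ => ?_)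
    rw [norm_smul, Real.norm_eq_abs]
    have := hC i ⟨w, hw⟩
    calc |b.repr ⟨w, hw⟩ i| * ‖T^[n] (b i : V)‖ ≤ (C i * ‖w‖) * ‖T^[n] (b i : V)‖ :=
          mul_le_mul_of_nonneg_right this (norm_nonneg _)
      _ = _ := by ring

lemma symm_mem_Gs (T : V ≃ₗ[ℝ] V) (v : V) (hv : v ∈ Gs T) (n : ℕ) : T.symm^[n] v ∈ Gs T := by
  rw [mem_Gs] at hv ⊢
  rw [← tendsto_add_atTop_iff_nat n]
  refine hv.congr fun m => ?_
  rw [Function.iterate_add_apply, it_symm]

end

theorem t_LIN1 : S_LIN1.{u} := by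
  intro V _ _ _ T v h1 h2
  obtain ⟨a, ha, hb⟩ := unif T
  have h3 : ∀ n, ‖v‖ ≤ a n * ‖T.symm^[n] v‖ := by
    intro n
    have := hb n (T.symm^[n] v) (symm_mem_Gs T v h1 n)
    rwa [it_symm] at this
  have h4 : Tendsto (fun n => a n * ‖T.symm^[n] v‖) atTop (𝓝 0) := by
    simpa using ha.mul h2.norm
  have h5 : ‖v‖ ≤ 0 := ge_of_tendsto' h4 h3
  exact norm_le_zero_iff.1 h5

section
variable {V : Type u} [NormedAddCommGroup V] [NormedSpace ℝ V] [FiniteDimensional ℝ V]

lemma map_eq (T : V ≃ₗ[ℝ] V) (K : Submodule ℝ V) (h : ∀ x ∈ K, T x ∈ K) :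
    K.map (T : V →ₗ[ℝ] V) = K := by
  apply Submodule.eq_of_le_of_finrank_eq
  · rintro _ ⟨x, hx, rfl⟩
    exact h x hx
  · exact LinearEquiv.finrank_map_eq T K

lemma symm_mem (T : V ≃ₗ[ℝ] V) (K : Submodule ℝ V) (h : ∀ x ∈ K, T x ∈ K) :
    ∀ x ∈ K, T.symm x ∈ K := by
  intro x hx
  rw [← map_eq T K h] at hx
  obtain ⟨y, hy, rfl⟩ := hx
  simpa using hy

lemma symm_it_mem (T : V ≃ₗ[ℝ] V) (K : Submodule ℝ V) (h : ∀ x ∈ K, T x ∈ K) (n : ℕ) :
    ∀ x ∈ K, T.symm^[n] x ∈ K := by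
  induction n with
  | zero => intro x hx; exact hx
  | succ n ih =>
    intro x hx
    rw [Function.iterate_succ_apply]
    exact ih _ (symm_mem T K h x hx)

end

lemma tendsto_geom (C l c : ℝ) (hl0 : 0 ≤ l) (hl1 : l < 1) :
    Tendsto (fun n : ℕ => C * l ^ n * c) atTop (𝓝 0) := by
  have := ((tendsto_pow_atTop_nhds_zero_of_lt_one hl0 hl1).const_mul C).mul_const c
  simpa using this

theorem t_LIN2 : S_LIN2.{u} := by
  intro V _ _ _ T H K hK x hx
  have hcl : IsClosed (K : Set V) := K.closed_of_finiteDimensional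
  set T' : (V ⧸ K) ≃ₗ[ℝ] (V ⧸ K) := Submodule.Quotient.equiv K K T (map_eq T K hK) with hT'
  have q1 : ∀ y : V, T' (K.mkQ y) = K.mkQ (T y) := fun y => rfl
  have q2 : ∀ y : V, T'.symm (K.mkQ y) = K.mkQ (T.symm y) := fun y => rfl
  have i1 : ∀ (n : ℕ) (y : V), T'^[n] (K.mkQ y) = K.mkQ (T^[n] y) := by
    intro n
    induction n with
    | zero => intro y; rfl
    | succ n ih =>
      intro y
      rw [Function.iterate_succ_apply, Function.iterate_succ_apply, q1, ih]
  have i2 : ∀ (n : ℕ) (y : V), T'.symm^[n] (K.mkQ y) = K.mkQ (T.symm^[n] y) := by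
    intro n
    induction n with
    | zero => intro y; rfl
    | succ n ih =>
      intro y
      rw [Function.iterate_succ_apply, Function.iterate_succ_apply, q2, ih]
  have hn : ∀ y : V, ‖K.mkQ y‖ ≤ ‖y‖ := fun y => Submodule.Quotient.norm_mk_le K y
  have hsum : K.mkQ (H.s x) = - K.mkQ (H.u x) := by
    rw [eq_neg_iff_add_eq_zero, ← map_add, H.add]
    simpa using hx
  have hz : K.mkQ (H.s x) = 0 := by
    refine t_LIN1 (V ⧸ K) T' _ ?_ ?_
    · rw [tendsto_zero_iff_norm_tendsto_zero]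
      refine squeeze_zero (fun n => norm_nonneg _) (fun n => ?_)
        (tendsto_geom H.C H.l ‖x‖ H.hl0 H.hl1)
      rw [i1]
      exact (hn _).trans (H.bs n x)
    · rw [tendsto_zero_iff_norm_tendsto_zero]
      refine squeeze_zero (fun n => norm_nonneg _) (fun n => ?_)
        (tendsto_geom H.C H.l ‖x‖ H.hl0 H.hl1)
      rw [hsum]
      have : T'.symm^[n] (-K.mkQ (H.u x)) = - K.mkQ (T.symm^[n] (H.u x)) := by
        rw [← P_apply, map_neg, P_apply, i2]
      rw [this, norm_neg]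
      exact (hn _).trans (H.bu n x)
  have hs : H.s x ∈ K := by simpa using hz
  refine ⟨hs, ?_, symm_mem T K hK x hx⟩
  have : H.u x = x - H.s x := by rw [eq_sub_iff_add_eq, add_comm, H.add]
  rw [this]
  exact K.sub_mem hx hs

theorem t_LIN4 : S_LIN4.{u} := by
  intro V _ _ _ B hB
  have h1 : ∃ δ > 0, ∀ b ∈ B, ‖b‖ < δ → b ∈ subV B := by
    obtain ⟨U, hU⟩ := (subV B).exists_isCompl
    have hU' : IsCompl U (subV B) := hU.symm
    set q := U.projectionOnto (subV B) hU' with hq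
    have hqm : ∀ v, v - (q v : V) ∈ subV B := fun v => Submodule.sub_projection_mem hU' v
    have hqP : ∀ w ∈ B, (q w : V) ∈ B := by
      intro w hw
      have : (q w : V) = w - (w - (q w : V)) := by abel
      rw [this]
      exact B.sub_mem hw (subV_le (hqm w))
    set G : AddSubgroup U := B.comap U.subtype.toAddMonoidHom with hG
    have hmG : ∀ x : U, x ∈ G ↔ (x : V) ∈ B := fun x => Iff.rfl
    have hGc : IsClosed (G : Set U) := hB.preimage continuous_subtype_val
    obtain ⟨δ, hδ, hdis⟩ := discrete_of_closed G hGc (by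
      intro v hv
      have h1 : (v : V) ∈ subV B := fun t => hv t
      have h2 : (v : V) ∈ U ⊓ subV B := ⟨v.2, h1⟩
      rw [hU'.inf_eq_bot, Submodule.mem_bot] at h2
      exact Subtype.ext h2)
    have hcont : Continuous q := q.continuous_of_finiteDimensional
    have h3 := Metric.continuous_iff.1 hcont 0 δ hδ
    obtain ⟨δ', hδ', h4⟩ := h3
    refine ⟨δ', hδ', fun b hb hbn => ?_⟩
    have h5 := h4 b (by rwa [dist_zero_right])
    rw [map_zero, dist_zero_right] at h5
    have h6 : q b = 0 := hdis (q b) (hqP b hb) h5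
    have h7 := hqm b
    rw [h6] at h7
    simpa using h7
  refine ⟨h1, ?_⟩
  intro T hT a ha hlim
  obtain ⟨δ, hδ, h2⟩ := h1
  have hTn : ∀ n : ℕ, T^[n] a ∈ B := by
    intro n
    induction n with
    | zero => exact ha
    | succ n ih =>
      rw [Function.iterate_succ_apply']
      exact hT _ ih
  have hinv : ∀ x ∈ subV B, T x ∈ subV B := by
    intro x hx t
    rw [← map_smul]
    exact hT _ (hx t)
  have h3 : ∀ᶠ n : ℕ in atTop, ‖T^[n] a‖ < δ := by
    have := hlim.norm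
    rw [norm_zero] at this
    exact this.eventually (gt_mem_nhds hδ)
  obtain ⟨n, hn⟩ := h3.exists
  have h4 := h2 _ (hTn n) hn
  have h5 := symm_it_mem T (subV B) hinv n _ h4
  rwa [it_symm'] at h5

end Pool.Agent.D0H98.NIL
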